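import Mathlib
import Pool.Agent.H.MP_65850b_an.C

set_option autoImplicit false

namespace Pool.Agent.Results.MP_65850b_an.Far

open scoped Real

/-- the kernel, summed over n + 1 = 1, 2, ... -/
noncomputable def Phi (t : ℝ) : ℝ :=
  ∑' n : ℕ, (2 * π ^ 2 * ((n : ℝ) + 1) ^ 4 * Real.exp (9 * t) -
    3 * π * ((n : ℝ) + 1) ^ 2 * Real.exp (5 * t)) *
      Real.exp (-π * ((n : ℝ) + 1) ^ 2 * Real.exp (4 * t))

/-- the finite cosine transform -/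
noncomputable def H (R : ℝ) (z : ℂ) : ℂ :=
  ∫ t in (0 : ℝ)..R, (Phi t : ℂ) * Complex.cos (z * t)

theorem result : (∀ R : ℝ, 0 < R → Differentiable ℂ (H R) ∧ H R 0 ≠ 0) ∧
    ∀ Y : ℝ, ∃ R₀ : ℝ, 0 < R₀ ∧ ∀ R : ℝ, R₀ ≤ R → ∃ z : ℂ, H R z = 0 ∧ Y ≤ |z.im| := by
  refine ⟨fun R hR => ⟨H.MP_65850b_an.HH_diff R hR.le, H.MP_65850b_an.HH_axis R hR 0 rfl⟩,
    fun Y => ?_⟩
  obtain ⟨a, ha⟩ := Filter.eventually_atTop.1 (H.MP_65850b_an.main Y)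
  refine ⟨max a 1, lt_max_of_lt_right one_pos, fun R hR => ?_⟩
  obtain ⟨z, h1, h2, -⟩ := ha R (le_of_max_le_left hR)
  exact ⟨z, h1, h2.trans (le_abs_self _)⟩

end Pool.Agent.Results.MP_65850b_an.Far
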